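import Pool.Agent.TH152.AC.Fin

/-!
# Negative Kodaira dimension and ruledness for covers of projective space over an arrangement

Let `ℓ i = 0` be `q` hyperplanes in projective `n`-space, an arbitrary arrangement, and let `X` be an
abelian cover of projective space which is branched over the arrangement, or any variety with a
generically finite map to projective space, such that at every prime divisor over `X` whose centre
lies on the arrangement some hyperplane has multiplicity at least `n + 2`, respectively `n + 3`. The
bounds do not depend on the number of hyperplanes.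

The function-field language of the starting repository is used: prime divisors over `X` are the
divisorial places `P` of the function field `K` of `X` (`Divisorial`), `P.ord` is the order along
`P`; `KodGe ℂ K n (fun _ => False) 0` says that `κ(X) ≥ 0`, `Psef ℂ K n (fun _ => False)` that the
canonical bundle of a resolution is pseudo-effective, `GeneralType ℂ K n` that `X` is of general
type, and `Ruled ℂ K` that `X` is birational to `B × ℙ¹` for some `B` (`Pool/Agent/W602/GT`).
`Cover`, `Cover.Free`, `Cover.FunctionField`, `Reducible` are in `Pool/Agent/W602/Cov`.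
-/

set_option autoImplicit false

open FF Pool.Agent.W602.Cov Pool.Agent.W602.GT

namespace Pool.Agent.Results.MP_e06174_ag.ArrangementCovers

/-- The value of a linear form at a vector over `K`. -/
noncomputable def form {n : ℕ} {K : Type} [Field K] [Algebra ℂ K] (φ : Form n)
    (x : Fin (n + 1) → K) : K := ∑ j, algebraMap ℂ K (φ (Pi.single j 1)) * x j

/-- The multiplicities of the cover `X` are at least `m`: whenever a germ of a curve in projective
space through a point of the arrangement meets the hyperplane `ℓ i = 0` with multiplicity `v i`, and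
these multiplicities are compatible with the equations `y k ^ m k = ∏ i, ℓ i (x) ^ e k i` of `X`, at
least one of them is at least `m`. -/
def Multiplicities {n q r : ℕ} (X : Cover n q r) (m : ℕ) : Prop :=
  ∀ v : Fin q → ℕ, v ≠ 0 → (∃ x : Fin (n + 1) → ℂ, x ≠ 0 ∧ ∀ i, v i ≠ 0 → X.ℓ i x = 0) →
    (∀ k, X.m k ∣ ∑ i, X.e k i * v i) → ∃ i, m ≤ v i

/-- The multiplicities over the arrangement of a variety of dimension `n` with function field `K`
and a generically finite rational map `[x 0 : ... : x n]` to projective space are at least `m`:
at every prime divisor `P` the hyperplane `i` has the order `a + v i`, where the minimum of the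
orders of all linear forms is `a`, and if some `v i` is not `0` then some `v i` is at least `m`. -/
def MultiplicitiesOver {n q : ℕ} (ℓ : Fin q → Form n) {K : Type} [Field K] [Algebra ℂ K]
    (x : Fin (n + 1) → K) (m : ℕ) : Prop :=
  ∀ P : Place ℂ K, Divisorial n P → ∀ (a : ℤ) (v : Fin q → ℕ),
    (∀ φ : Form n, form φ x = 0 ∨ a ≤ P.ord (form φ x)) → (∃ φ : Form n, form φ x ≠ 0 ∧ P.ord (form φ x) = a) →
    (∀ i, P.ord (form (ℓ i) x) = a + v i) → v ≠ 0 → ∃ i, m ≤ v i

/-- **(1)** Abelian covers `X` of projective `n`-space over an arbitrary arrangement with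
multiplicities at least `n + 2`: `κ(X) = -∞` if and only if `K_X` is not pseudo-effective, if and
only if `X` is ruled, if and only if the arrangement is reducible. If the multiplicities are at
least `n + 3`, then `X` is either ruled or of general type.
**(2)** Arbitrary varieties `V` of dimension `n` with a generically finite map to projective space,
over an arrangement which is not reducible: multiplicities at least `n + 2` give `κ(V) ≥ 0`, and
multiplicities at least `n + 3` give that `V` is of general type. -/
theorem result (n q : ℕ) (hn : 1 ≤ n) :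
    (∀ (r : ℕ) (X : Cover n q r), X.Free → ∀ (K : Type) [Field K] [Algebra ℂ K]
      (x : Fin (n + 1) → K) (y : Fin r → K), X.FunctionField K x y →
      (Multiplicities X (n + 2) →
        [¬ KodGe ℂ K n (fun _ => False) 0, ¬ Psef ℂ K n (fun _ => False), Ruled ℂ K,
          Reducible X.ℓ].TFAE) ∧
      (Multiplicities X (n + 3) →
        (Reducible X.ℓ ∧ Ruled ℂ K ∧ ¬ GeneralType ℂ K n) ∨
          (¬ Reducible X.ℓ ∧ ¬ Ruled ℂ K ∧ GeneralType ℂ K n))) ∧
    (∀ ℓ : Fin q → Form n, (∀ i, ℓ i ≠ 0) → ¬ Reducible ℓ → ∀ (K : Type) [Field K] [Algebra ℂ K]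
      (x : Fin (n + 1) → K), x 0 ≠ 0 →
      IsTranscendenceBasis ℂ (fun j : Fin n => x j.succ / x 0) →
      (MultiplicitiesOver ℓ x (n + 2) → KodGe ℂ K n (fun _ => False) 0) ∧
      (MultiplicitiesOver ℓ x (n + 3) → GeneralType ℂ K n)) :=
  ⟨fun _ X hF _ _ _ _ _ hK => ⟨fun h => Pool.Agent.TH152.AC.tfae hn X hF hK h,
    fun h => Pool.Agent.TH152.AC.dichotomy hn X hF hK h⟩,
    fun _ hℓ hr _ _ _ _ hx0 hbas =>
      ⟨fun h => Pool.Agent.TH152.AC.over_kodGe hn hℓ hr hx0 hbas h,
        fun h => Pool.Agent.TH152.AC.over_general hn hℓ hr hx0 hbas h⟩⟩

end Pool.Agent.Results.MP_e06174_ag.ArrangementCovers
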