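import Pool.Agent.TH466.QG.ATop

/-!
# Negative Kodaira dimension and uniruledness for varieties dominated by Kummer covers of
projective space

Let `ℓ i = 0` be `q` hyperplanes in projective `n`-space, an arbitrary arrangement, and let `V` be a
variety with a generically finite rational map to projective `n`-space such that the ratios of the
forms `ℓ i` have `N`-th roots in the function field of `V`, for example the Kummer cover given by
`y i ^ N = ℓ i (x)`. For `N > (n + 2) (5 r - 4)` we consider the varieties `W` which are dominated by
`V` with degree at most `r`, for example the quotients of `V` by groups of at most `r` birational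
automorphisms. The bound does not depend on the number of hyperplanes, and no assumption is made on
the branch locus of `V ⇢ W`.

The function-field language of the starting repository is used: `KodGe ℂ L n (fun _ => False) 0`
says that `κ(W) ≥ 0` for a projective manifold `W` with function field `L`,
`Psef ℂ L n (fun _ => False)` that its canonical bundle is pseudo-effective, `GeneralType ℂ L n`
that `W` is of general type (`Pool/Agent/W602/GT`); `IsUniruled ℂ L n`: `W` is uniruled
(`Pool/Agent/W619/PQ/Defs.lean`); `Cover`, `Cover.Free`, `Cover.FunctionField`, `Reducible` are in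
`Pool/Agent/W602/Cov`.
-/

set_option autoImplicit false

open Pool.Agent.W602.Cov Pool.Agent.W602.GT
open Pool.Agent.W619.PQ (IsUniruled)

namespace Pool.Agent.Results.MP_e06174_ag.DominatedUniruled

/-- The value of a linear form at a vector over `K`. -/
noncomputable def form {n : ℕ} {K : Type} [Field K] [Algebra ℂ K] (φ : Form n)
    (x : Fin (n + 1) → K) : K := ∑ j, algebraMap ℂ K (φ (Pi.single j 1)) * x j

/-- The ratios of the values of the linear forms `ℓ i` at `x` have `N`-th roots in `K`. -/
def Roots {n q : ℕ} (ℓ : Fin q → Form n) {K : Type} [Field K] [Algebra ℂ K]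
    (x : Fin (n + 1) → K) (N : ℕ) : Prop :=
  ∀ i j, ∃ z : K, form (ℓ i) x = form (ℓ j) x * z ^ N

/-- Let `n ≥ 1` and `N > (n + 2) (5 r - 4)`.
**(1)** Let `X` be an abelian cover of projective `n`-space over an arbitrary arrangement whose
function field contains the `N`-th roots of the ratios of the forms of the arrangement, and let `W`
be any variety dominated by `X` with degree at most `r`: `κ(W) = -∞` if and only if `K_W` is not
pseudo-effective, if and only if `W` is uniruled, if and only if `W` is not of general type, if and
only if the arrangement is reducible.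
**(2)** Let `V` be any variety with a generically finite rational map to projective `n`-space and
with `N`-th roots, over an arrangement which is not reducible. All varieties `W` with generically
finite dominant rational maps `V' ⇢ V` of any degree and `V' ⇢ W` of degree at most `r` are of
general type.
**(3)** The Kummer cover `y i ^ N = ℓ i (x)` has the roots. -/
theorem result (n q N r : ℕ) (hn : 1 ≤ n) (hN : 5 * (n + 2) * r < N + 4 * (n + 2)) :
    (∀ (q' : ℕ) (X : Cover n q q'), X.Free → ∀ (K : Type) [Field K] [Algebra ℂ K]
      (x : Fin (n + 1) → K) (y : Fin q' → K), X.FunctionField K x y → Roots X.ℓ x N →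
      ∀ (L : Type) [Field L] [Algebra ℂ L] [Algebra L K] [IsScalarTower ℂ L K]
        [FiniteDimensional L K], Module.finrank L K ≤ r →
        [¬ KodGe ℂ L n (fun _ => False) 0, ¬ Psef ℂ L n (fun _ => False), IsUniruled ℂ L n,
          ¬ GeneralType ℂ L n, Reducible X.ℓ].TFAE) ∧
    (∀ ℓ : Fin q → Form n, (∀ i, ℓ i ≠ 0) → ¬ Reducible ℓ → ∀ (K : Type) [Field K] [Algebra ℂ K]
      (x : Fin (n + 1) → K), x 0 ≠ 0 →
      IsTranscendenceBasis ℂ (fun j : Fin n => x j.succ / x 0) → Roots ℓ x N →
      ∀ (K' L : Type) [Field K'] [Field L] [Algebra ℂ K'] [Algebra ℂ L] [Algebra K K']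
        [Algebra L K'] [IsScalarTower ℂ K K'] [IsScalarTower ℂ L K'] [FiniteDimensional K K']
        [FiniteDimensional L K'], Module.finrank L K' ≤ r → GeneralType ℂ L n) ∧
    (∀ X : Cover n q q, (∀ k, X.m k = N) → (∀ k i, X.e k i = if i = k then 1 else 0) →
      ∀ (K : Type) [Field K] [Algebra ℂ K] (x : Fin (n + 1) → K) (y : Fin q → K),
      X.FunctionField K x y → Roots X.ℓ x N) :=
  ⟨fun _ X hF _ _ _ _ _ hK h _ _ _ _ _ _ hr =>
      Pool.Agent.TH466.QG.arr_tfae hn X hF hK h hN hr,
    fun _ hℓ hr _ _ _ _ hx0 hbas h _ _ _ _ _ _ _ _ _ _ _ _ hdeg =>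
      Pool.Agent.TH466.QG.arr_corr hn hdeg hℓ hr hx0 hbas h hN,
    fun X hm he _ _ _ _ _ hK => Pool.Agent.TH466.QG.kummer_roots X hm he hK⟩

end Pool.Agent.Results.MP_e06174_ag.DominatedUniruled
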