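import Mathlib
import Pool.Agent.TH710.ND.Proj
import Pool.Agent.TH710.ND.Sp

/-!
MP_e06174_ag, Q1: negative Kodaira dimension and rational curves for the components of projective
varieties given by nested sums of high powers of linear forms, or of monomials.
-/

set_option autoImplicit false

namespace Pool.Agent.Results.MP_e06174_ag.NestedUniruled

open FF MvPolynomial Pool.Agent.W602.GT
open Pool.Agent.TH710.ND (HighTowers IsNested CovLine)

/-- Let `V` be an irreducible component of a projective variety given by forms which are nested
sums of high powers of linear forms, or nested sums of high powers of monomials: at each of at most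
`h + 1` levels there are at most `s` summands, and the exponents are at least
`(n + 1) (h + 1) (2 s + 1) ^ 5`. The Kodaira dimension of `V` is `-∞` if and only if the canonical
divisor of a resolution of `V` is not pseudo-effective, if and only if `V` is birational to
`B × ℙ¹` for some `B`, and if and only if `V` is not of general type. For linear forms, `V` is then
covered by lines. -/
theorem result {k : Type} [Field k] [IsAlgClosed k] [CharZero k] {n : ℕ} {ι : Type}
    {F : ι → MvPolynomial (Fin (n + 1)) k} {s N h : ℕ}
    (hF : HighTowers s N h F) (hN : (n + 1) * ((h + 1) * (2 * s + 1) ^ 5) ≤ N)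
    {K : Type} [Field K] [Algebra k K] {w : ℕ} {y : Fin (n + 1) → K}
    (hy : SubVar F K w y) (hcomp : IsComponent F y) :
    [¬ KodGe k K w (fun _ => False) 0, ¬ Psef k K w (fun _ => False), Ruled k K,
      ¬ GeneralType k K w].TFAE ∧
    ((∀ e, IsNested s N h (F e)) → ¬ KodGe k K w (fun _ => False) 0 → CovLine (k := k) y) := by
  have hNb := (Pool.Agent.TH710.ND.bnd_le hN).1
  have h1 := Pool.Agent.TH710.ND.neg_tfae hF hNb hy hcomp
  refine ⟨h1, fun hF' hk => ?_⟩
  have h2 : ¬ KodGe k K w (fun _ => False) 0 ↔ ¬ GeneralType k K w := h1.out 0 3
  exact (Pool.Agent.TH710.ND.general_or_ruled hF' hNb hy hcomp (h2.1 hk)).1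

end Pool.Agent.Results.MP_e06174_ag.NestedUniruled
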