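import Pool.Agent.TH210.TC.Main

/-!
# Negative Kodaira dimension and uniruledness for twisted covers over an arbitrary base

For `i < r` let `ℓ i k = 0`, `k < q i`, be hyperplanes in projective `n i`-space, an arbitrary
arrangement (general position is not assumed), let `Z` be an arbitrary variety, and let `X` be an
abelian cover of the product of `Z` and the projective spaces, given by equations

  `y j ^ m j = g j * ∏ i, ∏ k, ℓ i k (x i) ^ e j i k`,

where the `g j` are arbitrary rational functions on `Z`; their divisors are arbitrary, and the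
fibration of `X` over `Z` may have arbitrarily many singular fibres. Let `κ(Z) ≥ 0`, and assume that
the multiplicities `v i k` of the hyperplanes at germs of curves in the product of the projective
spaces which are compatible with the equations are large,

  `1 ≤ ∑ i, max_k (v i k) / d i`,

where `d i = n i + 2` (or `d i = n i + 1` if the hyperplanes are not `n i + 2` hyperplanes in general
position). Then

  `κ(X) = - ∞` if and only if `X` is uniruled, if and only if `K_X` is not pseudo-effective, if and
  only if one of the arrangements is reducible.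

Moreover, if no arrangement is reducible, then `κ(X) ≥ κ(Z)`, and if all inequalities are strict,
then `κ(X) ≥ κ(Z) + ∑ i, n i`. The bounds do not depend on the numbers of the hyperplanes.

The function-field language of the starting repository is used. `K` and `F` are the function fields
of `X` and `Z`. `KodGe ℂ K N (fun _ => False) h` says that `κ(X) ≥ h`: for some `M > 0` there are
`M`-canonical forms which are regular at all prime divisors over `X` (that is, on a resolution) and
whose ratios contain `h` algebraically independent functions; for `h = 0` it says that there is a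
nonzero form. `Psef ℂ K N (fun _ => False)` says that the canonical bundle of a resolution is
pseudo-effective, and `IsUniruled ℂ K N` that `K` embeds into the field of rational functions in one
variable over the function field of a variety of dimension `N - 1`.
-/

set_option autoImplicit false

open Module Pool.Agent.W602.Cov Pool.Agent.W602.GT
open Pool.Agent.W619.PQ (IsUniruled)

namespace Pool.Agent.Results.MP_e06174_ag.TwistedCovers

/-- In suitable linear coordinates `X 0, ..., X n` each of the hyperplanes is one of `X j = 0` or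
`X 0 + ... + X n = 0`. The arrangements with this property which are not reducible are, up to
repetitions, the arrangements of `n + 2` hyperplanes in general position. -/
def Simplicial {n q : ℕ} (ℓ : Fin q → Form n) : Prop :=
  ∃ X : Basis (Fin (n + 1)) ℂ (Form n), ∀ i,
    (∃ c : ℂ, ℓ i = c • ∑ j, X j) ∨ ∃ (j : Fin (n + 1)) (c : ℂ), ℓ i = c • X j

/-- The bound for one arrangement in projective `n`-space: `n + 2`, and even `n + 1` if the
arrangement does not consist of `n + 2` hyperplanes in general position. -/
def Bound {n q : ℕ} (ℓ : Fin q → Form n) (d : ℕ) : Prop :=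
  d = n + 2 ∨ (d = n + 1 ∧ (Reducible ℓ ∨ ¬ Simplicial ℓ))

/-- The value of a linear form at a vector over `K`. -/
noncomputable def form {n : ℕ} {K : Type} [Field K] [Algebra ℂ K] (φ : Form n)
    (x : Fin (n + 1) → K) : K := ∑ j, algebraMap ℂ K (φ (Pi.single j 1)) * x j

/-- An abelian cover of the product of a variety `Z`, with function field `F`, and `r` projective
spaces of dimensions `n i`: the equations are
`y j ^ m j = g j * ∏ i, ∏ k, ℓ i k (x i) ^ e j i k`, where the `g j` are rational functions on `Z`
and the products of linear forms have degree `0` in the coordinates of each of the projective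
spaces. -/
structure TwistedCover (F : Type) [Field F] {r : ℕ} (n q : Fin r → ℕ) (R : ℕ) where
  ℓ : ∀ i, Fin (q i) → Form (n i)
  m : Fin R → ℕ
  e : Fin R → ∀ i, Fin (q i) → ℤ
  g : Fin R → F
  hℓ : ∀ i k, ℓ i k ≠ 0
  hm : ∀ j, 0 < m j
  he : ∀ j i, ∑ k, e j i k = 0
  hg : ∀ j, g j ≠ 0

namespace TwistedCover

variable {F : Type} [Field F] {r R : ℕ} {n q : Fin r → ℕ} (X : TwistedCover F n q R)

/-- `K` is the function field of (a component of) the cover: it is generated over `F` by the affine
coordinates `x i j / x i 0` of the projective spaces, which are algebraically independent over `F`,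
and by the functions `y j`, which satisfy the equations. -/
structure FunctionField (K : Type) [Field K] [Algebra ℂ K] [Algebra F K]
    (x : ∀ i, Fin (n i + 1) → K) (y : Fin R → K) : Prop where
  ne : ∀ i, x i 0 ≠ 0
  basis : IsTranscendenceBasis F (fun a : (i : Fin r) × Fin (n i) => x a.1 a.2.succ / x a.1 0)
  eqs : ∀ j, y j ^ X.m j = algebraMap F K (X.g j) * ∏ i, ∏ k, form (X.ℓ i k) (x i) ^ X.e j i k
  gen : IntermediateField.adjoin F (Set.range (fun a : (i : Fin r) × Fin (n i) =>
    x a.1 a.2.succ / x a.1 0) ∪ Set.range y) = ⊤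

/-- The multiplicities of the cover: whenever a germ of a curve in the product of the projective
spaces meets the hyperplanes `ℓ i k = 0` with multiplicities `v i k`, not all `0`, and these
multiplicities are compatible with the equations of `X`, then `v` satisfies `S`. -/
def Multiplicities (S : (∀ i, Fin (q i) → ℕ) → Prop) : Prop :=
  ∀ v : ∀ i, Fin (q i) → ℕ, (∃ i, v i ≠ 0) →
    (∀ i, ∃ x : Fin (n i + 1) → ℂ, x ≠ 0 ∧ ∀ k, v i k ≠ 0 → X.ℓ i k x = 0) →
    (∀ j, (X.m j : ℤ) ∣ ∑ i, ∑ k, X.e j i k * v i k) → S v

end TwistedCover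

variable {r : ℕ} {n q : Fin r → ℕ}

/-- The sum of the maximal multiplicities `v i k / d i` is at least `1`. -/
def Large (d : Fin r → ℕ) (v : ∀ i, Fin (q i) → ℕ) : Prop :=
  ∃ k : ∀ i, Fin (q i), (1 : ℚ) ≤ ∑ i, (v i (k i) : ℚ) / d i

/-- The sum of the maximal multiplicities `v i k / d i` is greater than `1`. -/
def Larger (d : Fin r → ℕ) (v : ∀ i, Fin (q i) → ℕ) : Prop :=
  ∃ k : ∀ i, Fin (q i), (1 : ℚ) < ∑ i, (v i (k i) : ℚ) / d i

/-- Let `Z` be a variety of dimension `w` with function field `F`, let `X` be an abelian cover of the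
product of `Z` and the projective `n i`-spaces, `n i ≥ 1`, with function field `K` and dimension
`N`, and let `d i` be the bounds for the arrangements.

**(1)** If an arrangement is reducible, then `X` is uniruled and `K_X` is not pseudo-effective (for
every `Z`, and without an assumption on the multiplicities).

**(2)** If `κ(Z) ≥ 0` and the multiplicities are large, then `κ(X) ≥ 0` if and only if `K_X` is
pseudo-effective, if and only if `X` is not uniruled, if and only if no arrangement is reducible.

**(3)** If no arrangement is reducible and the multiplicities are large, then `κ(X) ≥ κ(Z)`; and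
`κ(X) ≥ κ(Z) + ∑ i, n i` if all inequalities are strict. -/
theorem result (r R w N : ℕ) (n q : Fin r → ℕ) (hn : ∀ i, 1 ≤ n i) (hN : N = w + ∑ i, n i)
    (F K : Type) [Field F] [Field K] [Algebra ℂ F] [Algebra ℂ K] [Algebra F K]
    [IsScalarTower ℂ F K] [Algebra.EssFiniteType ℂ F] (hw : Algebra.trdeg ℂ F = w)
    (X : TwistedCover F n q R) (d : Fin r → ℕ) (hd : ∀ i, Bound (X.ℓ i) (d i))
    (x : ∀ i, Fin (n i + 1) → K) (y : Fin R → K) (hK : X.FunctionField K x y) :
    ((∃ i, Reducible (X.ℓ i)) → IsUniruled ℂ K N ∧ ¬ Psef ℂ K N (fun _ => False)) ∧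
    (KodGe ℂ F w (fun _ => False) 0 → X.Multiplicities (Large d) →
      [KodGe ℂ K N (fun _ => False) 0, Psef ℂ K N (fun _ => False), ¬ IsUniruled ℂ K N,
        ∀ i, ¬ Reducible (X.ℓ i)].TFAE) ∧
    ((∀ i, ¬ Reducible (X.ℓ i)) → ∀ h : ℕ, KodGe ℂ F w (fun _ => False) h →
      (X.Multiplicities (Large d) → KodGe ℂ K N (fun _ => False) h) ∧
      (X.Multiplicities (Larger d) → KodGe ℂ K N (fun _ => False) (h + ∑ i, n i))) := by
  subst hN
  have hA : (∃ i, Reducible (X.ℓ i)) → IsUniruled ℂ K (w + ∑ i, n i) ∧
      ¬ Psef ℂ K (w + ∑ i, n i) (fun _ => False) := fun ⟨i, hi⟩ =>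
    Pool.Agent.TH210.TC.up hw hK.ne hK.basis X.hℓ X.hg X.hm X.he hK.eqs hK.gen i hi
  have hB : (∀ i, ¬ Reducible (X.ℓ i)) → ∀ h : ℕ, KodGe ℂ F w (fun _ => False) h →
      X.Multiplicities (Large d) → KodGe ℂ K (w + ∑ i, n i) (fun _ => False) h :=
    fun hr h hZ hM => Pool.Agent.TH210.TC.low0 hn X.hℓ hr hd hw hK.ne hK.basis X.hg X.he hK.eqs
      hM hZ
  refine ⟨hA, fun hZ hM => ?_, fun hr h hZ => ⟨hB hr h hZ, fun hM =>
    Pool.Agent.TH210.TC.low1 hn X.hℓ hr hd hw hK.ne hK.basis X.hg X.he hK.eqs hM hZ⟩⟩
  have htr := Pool.Agent.TH210.TC.trdeg_tw hw hK.basis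
  have hess : Algebra.EssFiniteType ℂ K := Pool.Agent.TH210.TC.ess_tw hK.gen
  tfae_have 1 → 2 := fun hk => psef_of_kodGe hk
  tfae_have 2 → 3 := fun hp hu => (Pool.Agent.W619.Y.uniruled_neg _ htr hu).1
    ((Pool.Agent.TH466.QG.psef_iff _).1 hp)
  tfae_have 3 → 4 := fun hu i hi => hu (hA ⟨i, hi⟩).1
  tfae_have 4 → 1 := fun hr => hB hr 0 hZ hM
  tfae_finish

end Pool.Agent.Results.MP_e06174_ag.TwistedCovers
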